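import Pool.Agent.H74.OLP.Targets2

/-!
MP_781dd6_co, row ZGV: the sum at a vertex.
-/

set_option autoImplicit false
open Finset Pool.Agent.H74.OLP
open scoped Classical

namespace Pool.Agent.H70.OLP

theorem pf_ZGV : T_ZGV := by
  intro V E F _ _ _ M hM D v a b c hab hbc hac h
  have h1 : ∀ e, ((if M.s e = v then D e else 0) + (if M.t e = v then D e else 0)) =
      if e ∈ ({a, b, c} : Finset E) then D e else 0 := by
    intro e
    have he : e ∈ ({a, b, c} : Finset E) ↔ M.OnV e v := by
      rw [h e]; simp
    have hst := hM.st e
    by_cases hs : M.s e = v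
    · have ht : M.t e ≠ v := fun ht => hst (hs.trans ht.symm)
      rw [if_pos hs, if_neg ht, if_pos (he.mpr (Or.inl hs)), add_zero]
    · by_cases ht : M.t e = v
      · rw [if_neg hs, if_pos ht, if_pos (he.mpr (Or.inr ht)), zero_add]
      · rw [if_neg hs, if_neg ht, if_neg (fun hh => by
          rcases he.mp hh with h' | h'
          · exact hs h'
          · exact ht h'), add_zero]
  rw [Finset.sum_congr rfl (fun e _ => h1 e), Finset.sum_ite_mem, Finset.univ_inter,
    Finset.sum_insert (by simp [hab, hac]), Finset.sum_insert (by simp [hbc]),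
    Finset.sum_singleton, add_assoc]

end Pool.Agent.H70.OLP
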